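import Mathlib

/-!
# Digraphs of out-degree `r` with local edge-connectivity at most `⌊2r/3⌋ + 1`

For every `r ≥ 4` we construct a finite loopless digraph (parallel edges allowed) all of whose
out-degrees are exactly `r` and in which no two distinct vertices `x, y` are joined by more than
`⌊2r/3⌋ + 1 < r` pairwise edge-disjoint directed `x`-`y`-walks.  In particular no edge `(x, y)` has
`λ(x, y) ≥ r`.
-/

set_option autoImplicit false

namespace Pool.Agent.Results.MP_542d22_co.TwoThirds

/-- `DisjointWalks tail head x y m`: there are `m` directed walks from `x` to `y`, each given as the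
list of its consecutive edges, no two of which share an edge.  By Menger's theorem the largest such
`m` is the local edge-connectivity `λ(x, y)`. -/
def DisjointWalks {V E : Type} (tail head : E → V) (x y : V) (m : ℕ) : Prop :=
  ∃ P : Fin m → List E,
    (∀ i, P i ≠ [] ∧ (∀ e ∈ (P i).head?, tail e = x) ∧
      (∀ e ∈ (P i).getLast?, head e = y) ∧
      ∀ (k : ℕ) (a b : E), (P i)[k]? = some a → (P i)[k+1]? = some b → head a = tail b) ∧
    ∀ i j, i ≠ j → ∀ e ∈ P i, e ∉ P j

/-- A directed walk that starts in `S` and ends outside `S` uses an edge leaving `S`. -/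
lemma cross {V E : Type} (tail head : E → V) (S : Set V) :
    ∀ (l : List E) (x y : V), l ≠ [] → (∀ e ∈ l.head?, tail e = x) →
      (∀ e ∈ l.getLast?, head e = y) →
      (∀ (k : ℕ) (a b : E), l[k]? = some a → l[k+1]? = some b → head a = tail b) →
      x ∈ S → y ∉ S → ∃ e ∈ l, tail e ∈ S ∧ head e ∉ S := by
  intro l
  induction l with
  | nil => intro x y h; exact absurd rfl h
  | cons a t ih =>
    intro x y _ h1 h2 h3 hx hy
    have ha : tail a = x := h1 a (by simp)
    by_cases hS : head a ∈ S
    · cases t with
      | nil =>
        have : head a = y := h2 a (by simp)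
        exact absurd (this ▸ hS) hy
      | cons b t' =>
        have hab : head a = tail b := h3 0 a b (by simp) (by simp)
        obtain ⟨e, he, h⟩ := ih (head a) y (by simp)
          (by intro e he
              simp at he
              rw [← he]; exact hab.symm)
          (by intro e he
              apply h2 e
              simpa [List.getLast?_cons_cons] using he)
          (by intro k c d hc hd
              apply h3 (k+1) c d
              · simpa using hc
              · simpa using hd)
          hS hy
        exact ⟨e, List.mem_cons_of_mem _ he, h⟩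
    · exact ⟨a, by simp, by rw [ha]; exact hx, hS⟩

/-- The easy half of Menger's theorem. -/
lemma le_cut {V E : Type} [Finite E] (tail head : E → V) {x y : V} {m : ℕ}
    (h : DisjointWalks tail head x y m) (S : Set V) (hx : x ∈ S) (hy : y ∉ S) :
    m ≤ Nat.card {e : E // tail e ∈ S ∧ head e ∉ S} := by
  obtain ⟨P, hP, hd⟩ := h
  have hex : ∀ i : Fin m, ∃ e ∈ P i, tail e ∈ S ∧ head e ∉ S := fun i => by
    obtain ⟨h0, h1, h2, h3⟩ := hP i
    exact cross tail head S (P i) x y h0 h1 h2 h3 hx hy
  choose f hf1 hf2 using hex
  have hinj : Function.Injective (fun i => (⟨f i, hf2 i⟩ : {e : E // tail e ∈ S ∧ head e ∉ S})) := by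
    intro i j hij
    by_contra hne
    have h' : f i = f j := congrArg Subtype.val hij
    exact hd i j hne (f i) (hf1 i) (h' ▸ hf1 j)
  have := Nat.card_le_card_of_injective _ hinj
  simpa using this

/-! ### The digraph -/

/-- The vertices: a hub `none`, and `r` blocks, the `i`-th block consisting of `a_i = some (i, false)`
and `b_i = some (i, true)`. -/
abbrev W (r : ℕ) : Type := Option (Fin r × Bool)

/-- `⌊2r/3⌋ + 1`. -/
def L (r : ℕ) : ℕ := 2 * r / 3 + 1

/-- The number of edges from `a_i` to `b_i`. -/
def p (r : ℕ) : ℕ := (2 * r - L r + 1) / 2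

/-- The number of edges from `b_i` to `a_i`. -/
def q (r : ℕ) : ℕ := (2 * r - L r) / 2

/-- The numbers of parallel edges. -/
def mult (r : ℕ) : W r → W r → ℕ
  | none, none => 0
  | none, some (_, false) => 1
  | none, some (_, true) => 0
  | some (_, false), none => r - p r
  | some (_, true), none => r - q r
  | some (i, false), some (j, true) => if i = j then p r else 0
  | some (i, true), some (j, false) => if i = j then q r else 0
  | some (_, false), some (_, false) => 0
  | some (_, true), some (_, true) => 0

/-- The edges. -/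
abbrev Ed (r : ℕ) : Type := Σ z : W r × W r, Fin (mult r z.1 z.2)

lemma nums (r : ℕ) (hr : 4 ≤ r) : p r + q r = 2 * r - L r ∧ q r + 1 ≤ L r ∧ p r ≤ L r ∧ p r ≤ r ∧
    q r ≤ r ∧ L r ≤ r := by
  unfold p q L; omega

lemma card_edges (r : ℕ) (Q : W r × W r → Prop) [DecidablePred Q] :
    Nat.card {e : Ed r // Q e.1} = ∑ z : W r × W r, if Q z then mult r z.1 z.2 else 0 := by
  rw [Nat.card_eq_fintype_card, Fintype.card_subtype, Finset.card_filter]
  rw [Fintype.sum_sigma]
  refine Finset.sum_congr rfl fun z _ => ?_
  by_cases h : Q z
  · simp [h]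
  · simp [h]

lemma out_deg (r : ℕ) (hr : 4 ≤ r) (v : W r) :
    Nat.card {e : Ed r // e.1.1 = v} = r := by
  obtain ⟨h1, h2, h3, h4, h5, h6⟩ := nums r hr
  rw [card_edges r (fun z => z.1 = v), Fintype.sum_prod_type]
  simp only [Finset.sum_ite_irrel, Finset.sum_const_zero]
  rw [Finset.sum_ite_eq' Finset.univ v]
  simp only [Finset.mem_univ, if_true]
  rw [Fintype.sum_option, Fintype.sum_prod_type]
  rcases v with _ | ⟨i, _ | _⟩
  · simp [mult]
  · simp [mult]; omega
  · simp [mult]; omega

lemma in_deg_a (r : ℕ) (hr : 4 ≤ r) (i : Fin r) :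
    Nat.card {e : Ed r // e.1.1 ∈ ({some (i, false)}ᶜ : Set (W r)) ∧
      e.1.2 ∉ ({some (i, false)}ᶜ : Set (W r))} ≤ L r := by
  classical
  obtain ⟨h1, h2, h3, h4, h5, h6⟩ := nums r hr
  rw [card_edges r (fun z => z.1 ∈ ({some (i, false)}ᶜ : Set (W r)) ∧
    z.2 ∉ ({some (i, false)}ᶜ : Set (W r)))]
  calc _ ≤ ∑ z : W r × W r, if z.2 = some (i, false) then mult r z.1 z.2 else 0 := by
        apply Finset.sum_le_sum
        intro z _
        by_cases h : z.2 = some (i, false)
        · simp only [h, if_true]; split_ifs <;> simp
        · simp [h]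
    _ = ∑ x : W r, mult r x (some (i, false)) := by
        rw [Fintype.sum_prod_type]
        refine Finset.sum_congr rfl fun x _ => ?_
        simp
    _ = q r + 1 := by
        rw [Fintype.sum_option, Fintype.sum_prod_type]
        simp [mult]; omega
    _ ≤ L r := h2

lemma in_deg_b (r : ℕ) (hr : 4 ≤ r) (i : Fin r) :
    Nat.card {e : Ed r // e.1.1 ∈ ({some (i, true)}ᶜ : Set (W r)) ∧
      e.1.2 ∉ ({some (i, true)}ᶜ : Set (W r))} ≤ L r := by
  classical
  obtain ⟨h1, h2, h3, h4, h5, h6⟩ := nums r hr
  rw [card_edges r (fun z => z.1 ∈ ({some (i, true)}ᶜ : Set (W r)) ∧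
    z.2 ∉ ({some (i, true)}ᶜ : Set (W r)))]
  calc _ ≤ ∑ z : W r × W r, if z.2 = some (i, true) then mult r z.1 z.2 else 0 := by
        apply Finset.sum_le_sum
        intro z _
        by_cases h : z.2 = some (i, true)
        · simp only [h, if_true]; split_ifs <;> simp
        · simp [h]
    _ = ∑ x : W r, mult r x (some (i, true)) := by
        rw [Fintype.sum_prod_type]
        refine Finset.sum_congr rfl fun x _ => ?_
        simp
    _ = p r := by
        rw [Fintype.sum_option, Fintype.sum_prod_type]
        simp [mult]
    _ ≤ L r := h3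

lemma out_block (r : ℕ) (hr : 4 ≤ r) (i : Fin r) :
    Nat.card {e : Ed r // e.1.1 ∈ ({some (i, false), some (i, true)} : Set (W r)) ∧
      e.1.2 ∉ ({some (i, false), some (i, true)} : Set (W r))} ≤ L r := by
  classical
  obtain ⟨h1, h2, h3, h4, h5, h6⟩ := nums r hr
  rw [card_edges r (fun z => z.1 ∈ ({some (i, false), some (i, true)} : Set (W r)) ∧
    z.2 ∉ ({some (i, false), some (i, true)} : Set (W r)))]
  calc _ ≤ ∑ z : W r × W r, if z = (some (i, false), none) ∨ z = (some (i, true), none) then
          mult r z.1 z.2 else 0 := by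
        apply Finset.sum_le_sum
        rintro ⟨x, y⟩ _
        rcases x with _ | ⟨j, _ | _⟩
        · simp
        · rcases y with _ | ⟨k, _ | _⟩
          · by_cases hj : j = i <;> simp [hj]
          · simp [mult]
          · by_cases hj : j = i
            · by_cases hk : k = i
              · simp [hk]
              · have hjk : ¬ (j = k) := fun h => hk (h ▸ hj)
                simp [mult, hjk]
            · simp [hj]
        · rcases y with _ | ⟨k, _ | _⟩
          · by_cases hj : j = i <;> simp [hj]
          · by_cases hj : j = i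
            · by_cases hk : k = i
              · simp [hk]
              · have hjk : ¬ (j = k) := fun h => hk (h ▸ hj)
                simp [mult, hjk]
            · simp [hj]
          · simp [mult]
    _ ≤ ∑ z : W r × W r, ((if z = (some (i, false), none) then r - p r else 0) +
          (if z = (some (i, true), none) then r - q r else 0)) := by
        apply Finset.sum_le_sum
        rintro z _
        by_cases ha : z = (some (i, false), none)
        · subst ha; simp [mult]
        · by_cases hb : z = (some (i, true), none)
          · subst hb; simp [mult]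
          · simp [ha, hb]
    _ = (r - p r) + (r - q r) := by
        rw [Finset.sum_add_distrib]; simp
    _ ≤ L r := by omega

/-- For every `r ≥ 4` there is a finite loopless digraph, parallel edges allowed, in which every vertex
has out-degree exactly `r`, no ordered pair of distinct vertices `(x, y)` is joined by more than
`⌊2r/3⌋ + 1` pairwise edge-disjoint directed walks, and, in particular, no edge `(x, y)` has
`λ(x, y) ≥ r`. -/
theorem result : ∀ r : ℕ, 4 ≤ r →
    ∃ (V E : Type) (_ : Finite V) (_ : Finite E) (_ : Nonempty V) (tail head : E → V),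
      (∀ e, tail e ≠ head e) ∧
      (∀ v : V, Nat.card {e : E // tail e = v} = r) ∧
      (∀ x y : V, x ≠ y → ∀ m : ℕ, DisjointWalks tail head x y m → m ≤ 2 * r / 3 + 1) ∧
      (∀ e : E, ¬ DisjointWalks tail head (tail e) (head e) r) := by
  intro r hr
  have key : ∀ x y : W r, x ≠ y → ∀ m : ℕ,
      DisjointWalks (fun e : Ed r => e.1.1) (fun e : Ed r => e.1.2) x y m → m ≤ 2 * r / 3 + 1 := by
    intro x y hxy m hm
    rcases y with _ | ⟨i, _ | _⟩
    · rcases x with _ | ⟨i, c⟩
      · exact absurd rfl hxy
      · refine (le_cut _ _ hm ({some (i, false), some (i, true)} : Set (W r)) ?_ ?_).trans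
          (out_block r hr i)
        · cases c <;> simp
        · simp
    · exact (le_cut _ _ hm ({some (i, false)}ᶜ : Set (W r)) (by simpa using hxy) (by simp)).trans
        (in_deg_a r hr i)
    · exact (le_cut _ _ hm ({some (i, true)}ᶜ : Set (W r)) (by simpa using hxy) (by simp)).trans
        (in_deg_b r hr i)
  have loopless : ∀ e : Ed r, e.1.1 ≠ e.1.2 := by
    rintro ⟨⟨x, y⟩, c⟩ (h : x = y)
    subst h
    have hz : mult r x x = 0 := by
      rcases x with _ | ⟨i, _ | _⟩ <;> simp [mult]
    have := c.2
    simp only at this
    omega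
  refine ⟨W r, Ed r, inferInstance, inferInstance, ⟨none⟩, fun e => e.1.1, fun e => e.1.2,
    loopless, out_deg r hr, key, ?_⟩
  intro e h
  have := key _ _ (loopless e) r h
  omega

end Pool.Agent.Results.MP_542d22_co.TwoThirds
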